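import Pool.Agent.V11327.KOmain

/-!
There is a functional that clarifies the class of countable well-orderings and to which `x ↦ O^x`
is not continuously reducible, nor even reducible by Borel maps.
(Definitions in `Pool.Agent.V11327.KOdefs`.)
-/

set_option autoImplicit false

namespace Pool.Agent.Results.MP_f7aa94_lc.ClarifierNotAboveO

open Pool.Agent.V11327.KO

/-- The negated form of Q1, also for Borel reductions. -/
theorem result : ∃ F : R2 → R2, Clarifies F ∧ ¬ ContRed kleeneO F ∧ ¬ BorelRed kleeneO F := by
  refine ⟨Fc, clarifies_Fc, ?_, not_borelRed⟩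
  rintro ⟨R0, R1, h0, h1, h⟩
  exact not_borelRed ⟨R0, R1, h0.measurable, h1.measurable, h⟩

end Pool.Agent.Results.MP_f7aa94_lc.ClarifierNotAboveO
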